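import Mathlib
import Pool.Agent.QueueAssoc.Construction

open MeasureTheory ProbabilityTheory Filter Topology

open Pool.Agent.QueueAssoc

namespace Pool.Agent.Results.MP_d464c7_pr.NotAssociated

/-- **The workload differences of a stationary GI/GI/k queue need not be associated.**
For every `k ≥ 2` there is a stationary GI/GI/k queue with `ρ < 1`, whose service times and whose
interarrival times both have positive variance, such that for no `n` the family
`V_{n1}, V_{n2} - V_{n1}, …, V_{nk} - V_{n1}, -T_n` is associated. -/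
theorem result (k : ℕ) [NeZero k] (hk : 2 ≤ k) :
    ∃ (Ω : Type) (_ : MeasurableSpace Ω) (P : Measure Ω) (_ : IsProbabilityMeasure P)
      (S T : ℕ → Ω → ℝ) (W : ℕ → Ω → Fin k → ℝ),
      IsStationaryQueue P S T W ∧ 0 < Var[S 0; P] ∧ 0 < Var[T 0; P] ∧
        ∀ n, ¬ IsAssociated P
          (fun ω => diffFamily (afterArrival (W n ω) (S n ω)) (T n ω)) := by
  obtain ⟨m, rfl⟩ : ∃ m, k = m + 1 := ⟨k - 1, by omega⟩
  have hm : 1 ≤ m := by omega
  exact ⟨Om, inferInstance, PP, inferInstance, fun n => A m (n + m), fun n => B m (n + m),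
    fun n => Wf m 0 n, isStationaryQueue hm, var_A_pos hm _, var_B_pos _, not_associated hm⟩

end Pool.Agent.Results.MP_d464c7_pr.NotAssociated
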